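import Pool.Agent.BER.Stmts

set_option autoImplicit false

namespace Pool.Agent.BER.H42

open Pool.Agent.BER

section

variable {X : Type} [NormedCommRing X] [NormedAlgebra ℝ X]

/-- the first and the second derivative of `τ^k V` -/
theorem sec (lpm : LpmStmt) (lpd : LpdStmt) (p k J : ℕ) (ω : ℝ) (V : ℝ → ℝ → X)
    (hV : V ∈ TL X J) :
    (∃ E ∈ LP X (k + 1) 1, ∀ ψ τ L, Dt p ω (fun ψ τ L => τ ^ k • V ψ L) ψ τ L =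
      τ ^ k • (ω • d1 V ψ L) + E ψ τ L) ∧
    ∃ E ∈ LP X (k + 2) 1, ∀ ψ τ L, Dt p ω (Dt p ω (fun ψ τ L => τ ^ k • V ψ L)) ψ τ L =
      τ ^ k • ((ω ^ 2) • d1 (d1 V) ψ L) +
      τ ^ (k + 1) • ((2 * ω) • d1 (d2 V) ψ L -
        (2 * ω * ((k : ℝ) + 1 / (2 * (p : ℝ)))) • d1 V ψ L) + E ψ τ L := by
  obtain ⟨lpm1, -⟩ := lpm
  obtain ⟨mono, mulτ, tlτ, lead, tlmono⟩ := lpm1 X
  obtain ⟨dLP, dadd, dT, dTL, tadd⟩ := lpd X X p ω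
  have hsm : ∀ (c : ℝ) (V : ℝ → ℝ → X), V ∈ TL X J → (fun ψ L => c • V ψ L) ∈ TL X J ∧
      d1 (fun ψ L => c • V ψ L) = (fun ψ L => c • d1 V ψ L) ∧
      d2 (fun ψ L => c • V ψ L) = (fun ψ L => c • d2 V ψ L) := by
    intro c V hV
    exact (dTL J V hV).2.2.2.1 (c • ContinuousLinearMap.id ℝ X)
  obtain ⟨c, hc⟩ : ∃ c : ℝ, c = (k : ℝ) + 1 / (2 * (p : ℝ)) := ⟨_, rfl⟩
  obtain ⟨hV1, hV2, h12, -, hDV⟩ := dTL J V hV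
  obtain ⟨V1, hV1d, a1, a2, a3⟩ : ∃ V1 : ℝ → ℝ → X, (V1 = fun ψ L => ω • d1 V ψ L) ∧
      V1 ∈ TL X J ∧ d1 V1 = (fun ψ L => ω • d1 (d1 V) ψ L) ∧
      d2 V1 = (fun ψ L => ω • d2 (d1 V) ψ L) := ⟨_, rfl, hsm ω (d1 V) hV1⟩
  obtain ⟨V2, hV2d, c1, c2⟩ : ∃ V2 : ℝ → ℝ → X,
      (V2 = fun ψ L => d2 V ψ L + (-c) • V ψ L) ∧ V2 ∈ TL X J ∧
      d1 V2 = (fun ψ L => d1 (d2 V) ψ L + (-c) • d1 V ψ L) := by
    refine ⟨_, rfl, (TL X J).add_mem hV2 (hsm (-c) V hV).1, ?_⟩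
    rw [(tadd J (d2 V) hV2 _ (hsm (-c) V hV).1).1, (hsm (-c) V hV).2.1]
  have hD : Dt p ω (fun ψ τ L => τ ^ k • V ψ L) =
      fun ψ τ L => τ ^ k • V1 ψ L + τ ^ (k + 1) • V2 ψ L := by
    rw [hDV k, hV1d, hV2d, hc]
    funext ψ τ L
    simp only [neg_smul, sub_eq_add_neg]
  have hP : (fun ψ τ L => τ ^ k • V1 ψ L : ℝ → ℝ → ℝ → X) ∈ LP X 0 1 :=
    mono 0 k 1 1 (Nat.zero_le _) rfl (tlτ J k V1 a1)
  have hQ : (fun ψ τ L => τ ^ (k + 1) • V2 ψ L : ℝ → ℝ → ℝ → X) ∈ LP X 0 1 :=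
    mono 0 (k + 1) 1 1 (Nat.zero_le _) rfl (tlτ J (k + 1) V2 c1)
  have hDD : Dt p ω (Dt p ω (fun ψ τ L => τ ^ k • V ψ L)) =
      fun ψ τ L => Dt p ω (fun ψ τ L => τ ^ k • V1 ψ L) ψ τ L +
        Dt p ω (fun ψ τ L => τ ^ (k + 1) • V2 ψ L) ψ τ L := by
    rw [hD]
    exact dadd 1 _ hP _ hQ
  have hDP := (dTL J V1 a1).2.2.2.2 k
  have hDQ := (dTL J V2 c1).2.2.2.2 (k + 1)
  obtain ⟨V3, hV3d, g1⟩ : ∃ V3 : ℝ → ℝ → X, (V3 = fun ψ L => d2 V2 ψ L -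
      (((k + 1 : ℕ) : ℝ) + 1 / (2 * (p : ℝ))) • V2 ψ L) ∧ V3 ∈ TL X J :=
    ⟨_, rfl, (TL X J).sub_mem (dTL J V2 c1).2.1 ((TL X J).smul_mem _ c1)⟩
  refine ⟨⟨fun ψ τ L => τ ^ (k + 1) • V2 ψ L, tlτ J (k + 1) V2 c1, ?_⟩,
    ⟨fun ψ τ L => τ ^ (k + 2) • V3 ψ L, tlτ J (k + 2) V3 g1, ?_⟩⟩
  · intro ψ τ L
    rw [hD, hV1d]
  · intro ψ τ L
    rw [hDD, hDP, hDQ, hV3d, a2, a3, c2, ← h12, hV1d, ← hc]
    simp only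
    module

/-- expansion of a power -/
theorem nl (lpm : LpmStmt) (N : ℕ) (B h : ℝ → ℝ → ℝ → X) (hB : B ∈ LP X 0 1)
    (hh : h ∈ LP X N 1) (n : ℕ) :
    ∃ G ∈ LP X (2 * N) (n + 1), ∀ ψ τ L, (B ψ τ L + h ψ τ L) ^ (n + 1) =
      B ψ τ L ^ (n + 1) + ((n : ℝ) + 1) • (B ψ τ L ^ n * h ψ τ L) + G ψ τ L := by
  obtain ⟨lpm1, lpm2⟩ := lpm
  obtain ⟨mono, -⟩ := lpm1 X
  obtain ⟨mul, pow⟩ := lpm2 X
  induction n with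
  | zero =>
    refine ⟨fun _ _ _ => 0, (LP X (2 * N) (0 + 1)).zero_mem, ?_⟩
    intro ψ τ L
    simp
  | succ n ih =>
    obtain ⟨G, hG, hGe⟩ := ih
    have h1 := mul N N 1 1 h hh h hh
    have h2 := pow 0 1 n B hB
    have h3 := mul _ _ _ _ _ h2 _ h1
    have h4 : (fun ψ τ L => B ψ τ L + h ψ τ L) ∈ LP X 0 1 :=
      (LP X 0 1).add_mem hB (mono 0 N 1 1 (Nat.zero_le _) rfl hh)
    have h5 := mul _ _ _ _ _ hG _ h4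
    refine ⟨fun ψ τ L => ((n : ℝ) + 1) • (B ψ τ L ^ n * (h ψ τ L * h ψ τ L)) +
      G ψ τ L * (B ψ τ L + h ψ τ L), ?_, ?_⟩
    · exact (LP X (2 * N) (n + 1 + 1)).add_mem ((LP X (2 * N) (n + 1 + 1)).smul_mem _
        (mono _ _ _ _ (by omega) (by omega) h3)) (mono _ _ _ _ (by omega) rfl h5)
    · intro ψ τ L
      rw [_root_.pow_succ (B ψ τ L + h ψ τ L), hGe]
      simp only [Algebra.smul_def, map_add, map_natCast, map_one, Nat.cast_add, Nat.cast_one]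
      ring

theorem madd {N e : ℕ} {P Q : ℝ → ℝ → ℝ → X} (hP : P ∈ LP X N e) (hQ : Q ∈ LP X N e) :
    (fun ψ τ L => P ψ τ L + Q ψ τ L) ∈ LP X N e := (LP X N e).add_mem hP hQ

theorem msmul {N e : ℕ} {P : ℝ → ℝ → ℝ → X} (c : ℝ) (hP : P ∈ LP X N e) :
    (fun ψ τ L => c • P ψ τ L) ∈ LP X N e := (LP X N e).smul_mem c hP

theorem alg (N : ℕ) (a0 ω τ c s K : ℝ)
    (DDU q qv qw v1 v11 v12 w1 w11 w12 E1 E2 F2 Y Z C w G : X) :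
    (DDU + (τ ^ N • ((ω ^ 2) • v11) + τ ^ (N + 1) • ((2 * ω) • v12 - K • v1) + E2) +
      (τ ^ (N + 1) • ((ω ^ 2) • w11) + τ ^ (N + 1 + 1) • ((2 * ω) • w12 - c • w1) + F2) +
      (q + τ ^ N • qv + τ ^ (N + 1) • qw) +
      (a0 * τ) • (Y + s • ((Z + C) * (τ ^ N • (ω • v1) + E1 + w)) + G)) -
    (DDU + q + (a0 * τ) • Y) - τ ^ N • ((ω ^ 2) • v11 + qv) -
    τ ^ (N + 1) • ((2 * ω) • v12 - K • v1 + (a0 * s * ω) • (Z * v1) + (ω ^ 2) • w11 + qw) =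
    E2 + τ ^ (N + 2) • ((2 * ω) • w12 - c • w1) + F2 + a0 • (τ ^ 1 • G) +
      (a0 * s) • (τ ^ 1 • (C * (τ ^ N • (ω • v1) + E1 + w))) +
      (a0 * s) • (τ ^ 1 • (Z * (E1 + w))) := by
  simp only [Algebra.smul_def, map_mul, map_pow]
  ring

/-- the nonlinear part -/
theorem nlp (lpm : LpmStmt) (p N : ℕ) (hp : 1 ≤ p) (B hf B' A : ℝ → ℝ → ℝ → X)
    (hB : B ∈ LP X 0 1)
    (hN : ∃ N', hf ∈ LP X N' 1 ∧ N + 2 ≤ 2 * N' + 1) (hB' : B' ∈ LP X 1 1)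
    (hBA : ∀ ψ τ L, B ψ τ L = A ψ τ L + B' ψ τ L) :
    ∃ G ∈ LP X (N + 1) 1, ∃ C ∈ LP X 1 0,
      (fun ψ τ L => A ψ τ L ^ (2 * p)) ∈ LP X 0 0 ∧
      (∀ ψ τ L, (B ψ τ L + hf ψ τ L) ^ (2 * p + 1) = B ψ τ L ^ (2 * p + 1) +
        (2 * (p : ℝ) + 1) • ((A ψ τ L ^ (2 * p) + C ψ τ L) * hf ψ τ L) + G ψ τ L) := by
  have lpm' := lpm
  obtain ⟨lpm1, lpm2⟩ := lpm'
  obtain ⟨mono, -⟩ := lpm1 X
  obtain ⟨mul, pow⟩ := lpm2 X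
  obtain ⟨N', hN'0, hN'1⟩ := hN
  obtain ⟨G, hG, hGe⟩ := nl lpm N' B hf hB hN'0 (2 * p)
  obtain ⟨n, hn⟩ : ∃ n, 2 * p = n + 1 := ⟨2 * p - 1, by omega⟩
  have mA : A ∈ LP X 0 1 := by
    have h1 : A = fun ψ τ L => B ψ τ L + (-1 : ℝ) • B' ψ τ L := by
      funext ψ τ L
      rw [hBA, neg_smul, one_smul]
      abel
    rw [h1]
    exact madd hB (msmul (-1) (mono 0 1 1 1 (by omega) rfl hB'))
  obtain ⟨G', hG', hGe'⟩ := nl lpm 1 A B' mA hB' n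
  have h1 := mul _ _ _ _ _ (pow 0 1 n A mA) _ hB'
  have h2 : (fun ψ τ L => A ψ τ L ^ n * B' ψ τ L) ∈ LP X 1 0 :=
    mono 1 _ _ 0 (by omega) (by omega) h1
  have h3 : G' ∈ LP X 1 0 := mono 1 _ _ 0 (by omega) (by omega) hG'
  have h4 := pow 0 1 (2 * p) A mA
  refine ⟨G, mono (N + 1) _ _ 1 (by omega) (by omega) hG, fun ψ τ L =>
    ((n : ℝ) + 1) • (A ψ τ L ^ n * B' ψ τ L) + G' ψ τ L, madd (msmul _ h2) h3,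
    mono 0 _ _ 0 (by omega) (by omega) h4, ?_⟩
  intro ψ τ L
  have h5 := hGe ψ τ L
  have h6 := hGe' ψ τ L
  rw [← hBA, ← hn] at h6
  rw [h5, h6]
  push_cast
  simp only [add_assoc]

end

/-- PER: perturbation of the residual. -/
theorem per (lpm : LpmStmt) (lpd : LpdStmt) : PerStmt := by
  intro X _ _ p N J a0 ω χ' U q V qV Wf qW hp hNV hU _hq hB hV _hqV hW _hqW
  obtain ⟨⟨E1, hE1, e1⟩, ⟨E2, hE2, e2⟩⟩ := sec lpm lpd p N J ω V hV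
  obtain ⟨⟨F1, hF1, f1⟩, ⟨F2, hF2, f2⟩⟩ := sec lpm lpd p (N + 1) J ω Wf hW
  obtain ⟨B', hB', hBe⟩ := hB
  have lpm' := lpm
  obtain ⟨lpm1, lpm2⟩ := lpm'
  obtain ⟨mono, mulτ, tlτ, lead, tlmono⟩ := lpm1 X
  obtain ⟨mul, pow⟩ := lpm2 X
  obtain ⟨dLP, dadd, dT, dTL, tadd⟩ := lpd X X p ω
  have hBU : Dt p ω U ∈ LP X 0 1 := dLP 0 1 U hU
  obtain ⟨PV, hPV⟩ : ∃ PV : ℝ → ℝ → ℝ → X, PV = fun ψ τ L => τ ^ N • V ψ L := ⟨_, rfl⟩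
  obtain ⟨PW, hPW⟩ : ∃ PW : ℝ → ℝ → ℝ → X, PW = fun ψ τ L => τ ^ (N + 1) • Wf ψ L :=
    ⟨_, rfl⟩
  have mPV : PV ∈ LP X N 1 := by
    rw [hPV]
    exact tlτ J N V hV
  have mPW : PW ∈ LP X (N + 1) 1 := by
    rw [hPW]
    exact tlτ J (N + 1) Wf hW
  have mPV0 : PV ∈ LP X 0 1 := mono 0 N 1 1 (Nat.zero_le _) rfl mPV
  have mPW0 : PW ∈ LP X 0 1 := mono 0 (N + 1) 1 1 (Nat.zero_le _) rfl mPW
  have d3 : ∀ A ∈ LP X 0 1, ∀ B ∈ LP X 0 1, ∀ C ∈ LP X 0 1,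
      Dt p ω (fun ψ τ L => A ψ τ L + B ψ τ L + C ψ τ L) =
      fun ψ τ L => Dt p ω A ψ τ L + Dt p ω B ψ τ L + Dt p ω C ψ τ L := by
    intro A hA B hB C hC
    have h2 := dadd 1 _ (madd hA hB) C hC
    rw [dadd 1 A hA B hB] at h2
    exact h2
  have hU1 : Dt p ω (fun ψ τ L => U ψ τ L + τ ^ N • V ψ L + τ ^ (N + 1) • Wf ψ L) =
      fun ψ τ L => Dt p ω U ψ τ L + Dt p ω PV ψ τ L + Dt p ω PW ψ τ L := by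
    have h := d3 U hU PV mPV0 PW mPW0
    rw [← h, hPV, hPW]
  have hU2 : Dt p ω (Dt p ω (fun ψ τ L => U ψ τ L + τ ^ N • V ψ L +
      τ ^ (N + 1) • Wf ψ L)) = fun ψ τ L => Dt p ω (Dt p ω U) ψ τ L +
        Dt p ω (Dt p ω PV) ψ τ L + Dt p ω (Dt p ω PW) ψ τ L := by
    rw [hU1]
    exact d3 _ hBU _ (dLP 0 1 PV mPV0) _ (dLP 0 1 PW mPW0)
  have mDPW : Dt p ω PW ∈ LP X (N + 1) 1 := dLP (N + 1) 1 PW mPW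
  -- the perturbation
  obtain ⟨hf, hfd⟩ : ∃ hf : ℝ → ℝ → ℝ → X,
    hf = fun ψ τ L => Dt p ω PV ψ τ L + Dt p ω PW ψ τ L := ⟨_, rfl⟩
  have mhf : hf ∈ LP X N 1 := by
    rw [hfd]
    exact madd (dLP N 1 PV mPV) (mono N (N + 1) 1 1 (by omega) rfl mDPW)
  have hN' : ∃ N', hf ∈ LP X N' 1 ∧ N + 2 ≤ 2 * N' + 1 := by
    rcases hNV with h | h
    · exact ⟨N, mhf, by omega⟩
    · refine ⟨N + 1, ?_, by omega⟩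
      have h1 : PV ∈ LP X (N + 1) 1 := by
        have h2 : PV = 0 := by
          rw [hPV, h]
          funext ψ τ L
          simp
        rw [h2]
        exact (LP X (N + 1) 1).zero_mem
      rw [hfd]
      exact madd (dLP (N + 1) 1 PV h1) mDPW
  obtain ⟨A, hAd⟩ : ∃ A : ℝ → ℝ → ℝ → X, A = fun ψ _ _ => -(Real.sin ψ • χ') := ⟨_, rfl⟩
  have hBA : ∀ ψ τ L, Dt p ω U ψ τ L = A ψ τ L + B' ψ τ L := by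
    intro ψ τ L
    rw [hBe, hAd]
  obtain ⟨G, hG, C, mC, mA2, hGe⟩ := nlp lpm p N hp (Dt p ω U) hf B' A hBU hN' hB' hBA
  have hsin : ∀ ψ τ L, (Real.sin ψ • χ') ^ (2 * p) = A ψ τ L ^ (2 * p) := by
    intro ψ τ L
    rw [hAd]
    show _ = (-(Real.sin ψ • χ')) ^ (2 * p)
    rw [Even.neg_pow (even_two_mul _)]
  -- memberships
  obtain ⟨W3, hW3d, mW3⟩ : ∃ W3 : ℝ → ℝ → X, (W3 = fun ψ L => (2 * ω) • d1 (d2 Wf) ψ L -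
      (2 * ω * (((N + 1 : ℕ) : ℝ) + 1 / (2 * (p : ℝ)))) • d1 Wf ψ L) ∧
      W3 ∈ TL X J :=
    ⟨_, rfl, (TL X J).sub_mem ((TL X J).smul_mem _ (dTL J _ (dTL J Wf hW).2.1).1)
      ((TL X J).smul_mem _ (dTL J Wf hW).1)⟩
  have n1 := tlτ J (N + 2) W3 mW3
  have n2 : F2 ∈ LP X (N + 2) 1 := mono (N + 2) (N + 1 + 2) 1 1 (by omega) rfl hF2
  have n3 : (fun ψ τ L => τ ^ 1 • G ψ τ L) ∈ LP X (N + 2) 1 := mulτ (N + 1) 1 1 G hG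
  have n4 : (fun ψ τ L => τ ^ 1 • (C ψ τ L * hf ψ τ L)) ∈ LP X (N + 2) 1 :=
    mono (N + 2) (1 + N + 1) (0 + 1) 1 (by omega) rfl
      (mulτ (1 + N) 1 (0 + 1) _ (mul 1 N 0 1 C mC hf mhf))
  have n5' : (fun ψ τ L => E1 ψ τ L + Dt p ω PW ψ τ L) ∈ LP X (N + 1) 1 := madd hE1 mDPW
  have n5 : (fun ψ τ L => τ ^ 1 • (A ψ τ L ^ (2 * p) * (E1 ψ τ L + Dt p ω PW ψ τ L))) ∈
      LP X (N + 2) 1 :=
    mono (N + 2) (0 + (N + 1) + 1) (0 + 1) 1 (by omega) rfl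
      (mulτ (0 + (N + 1)) 1 (0 + 1) _ (mul 0 (N + 1) 0 1 _ mA2 _ n5'))
  have hmem := madd (madd (madd (madd (madd hE2 n1) n2) (msmul a0 n3))
    (msmul (a0 * (2 * (p : ℝ) + 1)) n4)) (msmul (a0 * (2 * (p : ℝ) + 1)) n5)
  have hfun : (fun ψ τ L => Rs p a0 ω
      (fun ψ τ L => U ψ τ L + τ ^ N • V ψ L + τ ^ (N + 1) • Wf ψ L)
      (fun ψ τ L => q ψ τ L + τ ^ N • qV ψ L + τ ^ (N + 1) • qW ψ L) ψ τ L -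
    Rs p a0 ω U q ψ τ L - τ ^ N • ((ω ^ 2) • d1 (d1 V) ψ L + qV ψ L) -
    τ ^ (N + 1) • ((2 * ω) • d1 (d2 V) ψ L -
      (2 * ω * ((N : ℝ) + 1 / (2 * (p : ℝ)))) • d1 V ψ L +
      (a0 * (2 * (p : ℝ) + 1) * ω) • ((Real.sin ψ • χ') ^ (2 * p) * d1 V ψ L) +
      (ω ^ 2) • d1 (d1 Wf) ψ L + qW ψ L)) =
    (fun ψ τ L => E2 ψ τ L + τ ^ (N + 2) • W3 ψ L + F2 ψ τ L + a0 • (τ ^ 1 • G ψ τ L) +
    (a0 * (2 * (p : ℝ) + 1)) • (τ ^ 1 • (C ψ τ L * hf ψ τ L)) +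
    (a0 * (2 * (p : ℝ) + 1)) • (τ ^ 1 • (A ψ τ L ^ (2 * p) *
      (E1 ψ τ L + Dt p ω PW ψ τ L)))) := by
    funext ψ τ L
    have r1 : Dt p ω PV ψ τ L = τ ^ N • (ω • d1 V ψ L) + E1 ψ τ L := by
      rw [hPV]
      exact e1 ψ τ L
    have r2 := e2 ψ τ L
    rw [← hPV] at r2
    have r3 := f2 ψ τ L
    rw [← hPW] at r3
    have r4 := hGe ψ τ L
    have r5 : hf ψ τ L = Dt p ω PV ψ τ L + Dt p ω PW ψ τ L := by rw [hfd]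
    have r6 : Dt p ω U ψ τ L + Dt p ω PV ψ τ L + Dt p ω PW ψ τ L =
        Dt p ω U ψ τ L + hf ψ τ L := by rw [r5, add_assoc]
    unfold Rs
    rw [hU2, hU1]
    simp only
    rw [r6, r4, r2, r3, hsin ψ τ L, hW3d]
    simp only
    rw [r5, r1]
    exact alg N a0 ω τ _ _ _ _ _ _ _ _ _ _ _ _ _ _ _ _ _ _ _ _ _
  rw [hfun]
  exact hmem

end Pool.Agent.BER.H42
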